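import Pool.Agent.QSN.StmtsB2

/-!
# Squad QSN (MP_dc0713_gt), row OVS: overspill
-/

set_option autoImplicit false

namespace Pool.Agent.QSN.H12

open Matrix Finset Pool.Agent.QSX Filter Topology

/-- Along the ultrafilter of a scale the index is eventually large. -/
theorem ev_ge (S : Scale) (k : ℕ) : ∀ᶠ s in (S.ω : Filter ℕ), k ≤ s := by
  have h := S.tend.eventually_gt_atTop (∑ j ∈ Finset.range k, |S.R j|)
  filter_upwards [h] with s hs
  by_contra hlt
  have hlt' : s < k := not_le.mp hlt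
  have h1 : |S.R s| ≤ ∑ j ∈ Finset.range k, |S.R j| :=
    Finset.single_le_sum (f := fun j => |S.R j|) (fun j _ => abs_nonneg _)
      (Finset.mem_range.mpr hlt')
  have h2 := le_abs_self (S.R s)
  linarith

theorem ovs : OvsStmt := by
  classical
  intro S α Z f hZ
  refine ⟨fun h => ?_, fun h => ?_⟩
  · by_contra hcon
    have hE : ∀ c > (0 : ℝ), ∀ᶠ s in (S.ω : Filter ℕ), ∃ z ∈ Z s,
        Real.exp (-(c * S.R s)) < |f s z| := by
      intro c hc
      have h1 : ¬ ∀ᶠ s in (S.ω : Filter ℕ), ∀ z ∈ Z s, |f s z| ≤ Real.exp (-(c * S.R s)) :=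
        fun h2 => hcon ⟨c, hc, h2⟩
      have h2 := Ultrafilter.eventually_not.mpr h1
      filter_upwards [h2] with s hs
      push Not at hs
      exact hs
    have hw : ∀ s k : ℕ, ∃ w ∈ Z s, (∃ z ∈ Z s, Real.exp (-(1 / ((k : ℝ) + 1) * S.R s)) < |f s z|) →
        Real.exp (-(1 / ((k : ℝ) + 1) * S.R s)) < |f s w| := by
      intro s k
      by_cases hz : ∃ z ∈ Z s, Real.exp (-(1 / ((k : ℝ) + 1) * S.R s)) < |f s z|
      · obtain ⟨z, hz1, hz2⟩ := hz
        exact ⟨z, hz1, fun _ => hz2⟩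
      · obtain ⟨z, hz1⟩ := hZ s
        exact ⟨z, hz1, fun h3 => absurd h3 hz⟩
    choose w hw1 hw2 using hw
    have hmax : ∀ s : ℕ, ∃ k0 : ℕ, ∀ k ≤ s, |f s (w s k)| ≤ |f s (w s k0)| := by
      intro s
      obtain ⟨k0, _, hk⟩ := Finset.exists_max_image (Finset.range (s + 1))
        (fun k => |f s (w s k)|) ⟨0, Finset.mem_range.mpr (Nat.succ_pos s)⟩
      exact ⟨k0, fun k hks => hk k (Finset.mem_range.mpr (Nat.lt_succ_of_le hks))⟩
    choose k0 hk0 using hmax
    obtain ⟨c, hc, hc2⟩ := h (fun s => w s (k0 s)) (fun s => hw1 s (k0 s))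
    obtain ⟨k, hk⟩ := exists_nat_one_div_lt hc
    have hfalse : ∀ᶠ s in (S.ω : Filter ℕ), False := by
      filter_upwards [hc2, hE (1 / ((k : ℝ) + 1)) (by positivity), ev_ge S k, S.ev_R 0] with
        s h1 h2 h3 h4
      have h5 := hw2 s k h2
      have h6 := hk0 s k h3
      have h7 : Real.exp (-(c * S.R s)) ≤ Real.exp (-(1 / ((k : ℝ) + 1) * S.R s)) := by
        apply Real.exp_le_exp.mpr
        have := mul_le_mul_of_nonneg_right hk.le h4
        linarith
      linarith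
    exact (Filter.eventually_false_iff_eq_bot.mp hfalse ▸ S.ω.neBot.ne) rfl
  · intro ε hε
    by_contra hcon
    have h2 := Ultrafilter.eventually_not.mpr hcon
    have hw : ∀ s : ℕ, ∃ w ∈ Z s, (∃ z ∈ Z s, Real.exp (ε * S.R s) < |f s z|) →
        Real.exp (ε * S.R s) < |f s w| := by
      intro s
      by_cases hz : ∃ z ∈ Z s, Real.exp (ε * S.R s) < |f s z|
      · obtain ⟨z, hz1, hz2⟩ := hz
        exact ⟨z, hz1, fun _ => hz2⟩
      · obtain ⟨z, hz1⟩ := hZ s
        exact ⟨z, hz1, fun h3 => absurd h3 hz⟩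
    choose w hw1 hw2 using hw
    have hM := h w hw1 ε hε
    have hfalse : ∀ᶠ s in (S.ω : Filter ℕ), False := by
      filter_upwards [hM, h2] with s h3 h4
      push Not at h4
      have h5 := hw2 s h4
      linarith
    exact (Filter.eventually_false_iff_eq_bot.mp hfalse ▸ S.ω.neBot.ne) rfl

end Pool.Agent.QSN.H12
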