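import Pool.Agent.QSN.StmtsD

/-!
# Squad QSN (MP_dc0713_gt), row SLS: the three algebras are spanned by rational matrices
-/

set_option autoImplicit false

namespace Pool.Agent.QSN.H12

open Matrix Finset Pool.Agent.QSX

theorem ratSp_reg {k : ℕ} (A : Type) [Ring A] [Algebra ℝ A] (b : Module.Basis (Fin k) ℝ A)
    (h : ∀ i j l, ∃ q : ℚ, b.repr (b i * b j) l = (q : ℝ)) : RatSp (reg A b) := by
  refine ⟨Set.range (fun i => Algebra.leftMulMatrix b (b i)), ?_, ?_⟩
  · rintro z ⟨i, rfl⟩ l j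
    obtain ⟨q, hq⟩ := h i j l
    refine ⟨q, ?_⟩
    show Algebra.leftMulMatrix b (b i) l j = (q : ℝ)
    rw [Algebra.leftMulMatrix_eq_repr_mul]
    exact hq
  · have h1 : Subalgebra.toSubmodule (reg A b) =
        LinearMap.range (Algebra.leftMulMatrix b).toLinearMap := by
      ext x
      simp [reg]
    rw [h1, LinearMap.range_eq_map, ← b.span_eq, Submodule.map_span, ← Set.range_comp]
    rfl

theorem quat_basis (i : Fin 4) : (QuaternionAlgebra.basisOneIJK (-1 : ℝ) 0 (-1)) i =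
    ⟨(Pi.single i 1 : Fin 4 → ℝ) 0, (Pi.single i 1 : Fin 4 → ℝ) 1, (Pi.single i 1 : Fin 4 → ℝ) 2,
      (Pi.single i 1 : Fin 4 → ℝ) 3⟩ := by
  unfold QuaternionAlgebra.basisOneIJK
  rw [Module.Basis.coe_ofEquivFun]
  rfl

theorem quat_repr (i j l : Fin 4) : ∃ q : ℚ,
    (QuaternionAlgebra.basisOneIJK (-1 : ℝ) 0 (-1)).repr
      ((QuaternionAlgebra.basisOneIJK (-1 : ℝ) 0 (-1)) i *
        (QuaternionAlgebra.basisOneIJK (-1 : ℝ) 0 (-1)) j) l = (q : ℝ) := by
  rw [quat_basis, quat_basis, QuaternionAlgebra.coe_basisOneIJK_repr]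
  fin_cases i <;> fin_cases j <;> fin_cases l <;>
    first
      | (refine ⟨0, ?_⟩; simp; done)
      | (refine ⟨1, ?_⟩; simp; done)
      | (refine ⟨-1, ?_⟩; simp; done)

theorem sls : SlsStmt := by
  refine ⟨ratSp_reg _ _ ?_, ratSp_reg _ _ ?_, ratSp_reg _ _ ?_⟩
  · intro i j l
    refine ⟨1, ?_⟩
    simp
  · intro i j l
    fin_cases i <;> fin_cases j <;> fin_cases l <;>
      first
        | (refine ⟨0, ?_⟩; simp; done)
        | (refine ⟨1, ?_⟩; simp; done)
        | (refine ⟨-1, ?_⟩; simp; done)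
  · exact quat_repr

end Pool.Agent.QSN.H12
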